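import Pool.Agent.V1121.QG.Root

set_option autoImplicit false

namespace Pool.Agent.V1121.BP

open CoxeterSystem Pool.Agent.V1121.QG

variable {B : Type*} {M : CoxeterMatrix B}
variable {W : Type*} [Group W]
variable (cs : CoxeterSystem M W)

section basic

variable {cs}

lemma ss (i : B) (w : W) : cs.simple i * (cs.simple i * w) = w := by
  rw [← mul_assoc, cs.simple_mul_simple_self, one_mul]

lemma ss' (w : W) (i : B) : w * cs.simple i * cs.simple i = w := by
  rw [mul_assoc, cs.simple_mul_simple_self, mul_one]

lemma lcases (i : B) (w : W) : cs.length (cs.simple i * w) = cs.length w + 1 ∨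
    cs.length (cs.simple i * w) + 1 = cs.length w := cs.length_simple_mul w i

lemma rcases' (w : W) (i : B) : cs.length (w * cs.simple i) = cs.length w + 1 ∨
    cs.length (w * cs.simple i) + 1 = cs.length w := cs.length_mul_simple w i

end basic

open Classical in
/-- left Demazure operator -/
noncomputable def L (i : B) (w : W) : W :=
  if cs.length w < cs.length (cs.simple i * w) then cs.simple i * w else w

open Classical in
/-- right Demazure operator -/
noncomputable def R (i : B) (w : W) : W :=
  if cs.length w < cs.length (w * cs.simple i) then w * cs.simple i else w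

/-- one step up in the Bruhat order -/
def St (u v : W) : Prop := ∃ t, cs.IsReflection t ∧ v = u * t ∧ cs.length u < cs.length v

/-- the Bruhat order -/
def Le (u v : W) : Prop := Relation.ReflTransGen (St cs) u v

variable {cs}

lemma L_up {i : B} {w : W} (h : cs.length w < cs.length (cs.simple i * w)) :
    L cs i w = cs.simple i * w := if_pos h
lemma L_dn {i : B} {w : W} (h : cs.length (cs.simple i * w) < cs.length w) :
    L cs i w = w := if_neg (by omega)
lemma R_up {i : B} {w : W} (h : cs.length w < cs.length (w * cs.simple i)) :
    R cs i w = w * cs.simple i := if_pos h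
lemma R_dn {i : B} {w : W} (h : cs.length (w * cs.simple i) < cs.length w) :
    R cs i w = w := if_neg (by omega)

lemma L_fix_iff {i : B} {w : W} : L cs i w = w ↔ cs.length (cs.simple i * w) < cs.length w := by
  constructor
  · intro h
    rcases lcases (cs := cs) i w with h1 | h1
    · exfalso
      rw [L_up (by omega)] at h
      have := mul_eq_right.mp h
      have h2 := cs.length_simple i
      rw [this, cs.length_one] at h2
      omega
    · omega
  · exact L_dn

lemma R_fix_iff {i : B} {w : W} : R cs i w = w ↔ cs.length (w * cs.simple i) < cs.length w := by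
  constructor
  · intro h
    rcases rcases' (cs := cs) w i with h1 | h1
    · exfalso
      rw [R_up (by omega)] at h
      have := mul_eq_left.mp h
      have h2 := cs.length_simple i
      rw [this, cs.length_one] at h2
      omega
    · omega
  · exact R_dn

lemma L_len (i : B) (w : W) : cs.length w ≤ cs.length (L cs i w) := by
  rw [L]; split_ifs with h
  · exact h.le
  · exact le_rfl

lemma R_len (i : B) (w : W) : cs.length w ≤ cs.length (R cs i w) := by
  rw [R]; split_ifs with h
  · exact h.le
  · exact le_rfl

lemma L_eq_of_len {i : B} {w : W} (h : cs.length (L cs i w) ≤ cs.length w) : L cs i w = w := by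
  rw [L] at h ⊢; split_ifs at h ⊢ with h1
  · omega
  · rfl

lemma R_eq_of_len {i : B} {w : W} (h : cs.length (R cs i w) ≤ cs.length w) : R cs i w = w := by
  rw [R] at h ⊢; split_ifs at h ⊢ with h1
  · omega
  · rfl

/-- if `w` and `s w t` have... the exchange coincidence -/
lemma coincide {i j : B} {w : W} (h1 : cs.length w < cs.length (w * cs.simple j))
    (h2 : cs.length (cs.simple i * w * cs.simple j) < cs.length (cs.simple i * w)) :
    w * cs.simple j = cs.simple i * w := by
  have h3 : 0 ≤ geo cs w (ee j) := (geo_nonneg_iff cs w j).mpr h1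
  have h4 : geo cs (cs.simple i * w) (ee j) ≤ 0 := (geo_nonpos_iff cs _ j).mpr h2
  have h5 : geo cs w (ee j) = ee i := by
    apply PR.eq_ee (cs := cs) ⟨⟨w, j, rfl⟩, h3⟩
    rwa [geo_geo]
  have h6 : geo cs w (ee j) = geo cs 1 (ee i) := by rw [h5]; simp
  -- reflections agree
  have h7 : w * cs.simple j * w⁻¹ = cs.simple i := by
    apply geo_injective cs
    apply LinearMap.ext
    intro v
    rw [geo_conj_simple, h5, geo_simple, sg_apply, bil_ee_left]
  rw [← h7]; group

lemma LR_comm (i j : B) (w : W) : L cs i (R cs j w) = R cs j (L cs i w) := by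
  rcases lcases (cs := cs) i w with h1 | h1 <;> rcases rcases' (cs := cs) w j with h2 | h2
  · have e1 : R cs j w = w * cs.simple j := R_up (by omega)
    have e2 : L cs i w = cs.simple i * w := L_up (by omega)
    rw [e1, e2]
    rcases lcases (cs := cs) i (w * cs.simple j) with h3 | h3
    · have e3 : L cs i (w * cs.simple j) = cs.simple i * (w * cs.simple j) := L_up (by omega)
      have e4 : R cs j (cs.simple i * w) = cs.simple i * w * cs.simple j :=
        R_up (by rw [mul_assoc]; omega)
      rw [e3, e4, mul_assoc]
    · have h4 : w * cs.simple j = cs.simple i * w := by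
        apply coincide (by omega)
        rw [mul_assoc]; omega
      have e3 : L cs i (w * cs.simple j) = w * cs.simple j := L_dn (by omega)
      have e4 : R cs j (cs.simple i * w) = cs.simple i * w := R_dn (by rw [mul_assoc]; omega)
      rw [e3, e4, h4]
  · have e1 : R cs j w = w := R_dn (by omega)
    have e2 : L cs i w = cs.simple i * w := L_up (by omega)
    have e3 : R cs j (cs.simple i * w) = cs.simple i * w := by
      apply R_dn
      rw [mul_assoc]
      rcases lcases (cs := cs) i (w * cs.simple j) with h3 | h3 <;> omega
    rw [e1, e2, e3]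
  · have e1 : R cs j w = w * cs.simple j := R_up (by omega)
    have e2 : L cs i w = w := L_dn (by omega)
    have e3 : L cs i (w * cs.simple j) = w * cs.simple j := by
      apply L_dn
      rw [← mul_assoc]
      rcases rcases' (cs := cs) (cs.simple i * w) j with h3 | h3 <;> omega
    rw [e1, e2, e3, e1]
  · have e1 : R cs j w = w := R_dn (by omega)
    have e2 : L cs i w = w := L_dn (by omega)
    rw [e1, e2, e1]

/-! ### Bruhat order -/

lemma Le.len {u v : W} (h : Le cs u v) : u = v ∨ cs.length u < cs.length v := by
  induction h with
  | refl => exact Or.inl rfl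
  | tail _ h2 ih =>
    obtain ⟨t, _, _, h3⟩ := h2
    rcases ih with rfl | h4
    · exact Or.inr h3
    · exact Or.inr (h4.trans h3)

lemma Le.antisymm {u v : W} (h : Le cs u v) (h' : Le cs v u) : u = v := by
  rcases h.len with h1 | h1
  · exact h1
  · rcases h'.len with h2 | h2
    · exact h2.symm
    · omega

lemma St.simple {i : B} {w : W} (h : cs.length w < cs.length (cs.simple i * w)) :
    St cs w (cs.simple i * w) := by
  refine ⟨w⁻¹ * cs.simple i * w, ?_, by group, h⟩
  have := (cs.isReflection_simple i).conj w⁻¹
  rwa [inv_inv] at this

lemma step_cases (i : B) {z z1 : W} (h : St cs z z1) :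
    z1 = cs.simple i * z ∨ St cs (cs.simple i * z) (cs.simple i * z1) := by
  obtain ⟨t, ht, rfl, hl⟩ := h
  have h1 : 0 ≤ geo cs z (rt cs t) := (length_lt_iff ht).mp hl
  rcases IsRt.cases (cs := cs) ((rt_isRt ht).geo (cs.simple i * z)) with h2 | h2
  · right
    refine ⟨t, ht, by rw [mul_assoc], ?_⟩
    rw [← mul_assoc]
    exact (length_lt_iff ht).mpr h2
  · left
    have h3 : geo cs z (rt cs t) = ee i := by
      apply PR.eq_ee (cs := cs) ⟨(rt_isRt ht).geo z, h1⟩
      rwa [geo_geo]
    have h7 : z * t * z⁻¹ = cs.simple i := by
      apply geo_injective cs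
      apply LinearMap.ext
      intro v
      rw [geo_conj_refl ht, h3, geo_simple, sg_apply, bil_ee_left]
    rw [← h7]; group

lemma le_L (i : B) (w : W) : Le cs w (L cs i w) := by
  rw [L]; split_ifs with h
  · exact Relation.ReflTransGen.single (St.simple h)
  · exact Relation.ReflTransGen.refl

lemma le_L' (i : B) (w : W) : Le cs (cs.simple i * w) (L cs i w) := by
  rw [L]; split_ifs with h
  · exact Relation.ReflTransGen.refl
  · have h1 : cs.length (cs.simple i * w) < cs.length (cs.simple i * (cs.simple i * w)) := by
      rw [ss]
      rcases lcases (cs := cs) i w with h2 | h2 <;> omega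
    have := St.simple h1
    rw [ss] at this
    exact Relation.ReflTransGen.single this

lemma L_mono (i : B) {u v : W} (h : Le cs u v) : Le cs (L cs i u) (L cs i v) := by
  induction h with
  | refl => exact Relation.ReflTransGen.refl
  | tail _ h2 ih =>
    rename_i z z1 _
    apply Relation.ReflTransGen.trans ih
    rcases step_cases i h2 with h3 | h3
    · obtain ⟨_, _, _, hl⟩ := h2
      have e1 : L cs i z = z1 := by rw [h3]; exact L_up (by rw [← h3]; exact hl)
      have e2 : L cs i z1 = z1 := L_dn (by rw [h3, ss, ← h3]; exact hl)
      rw [e1, e2]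
    · have ha : Le cs z (L cs i z1) := (Relation.ReflTransGen.single h2).trans (le_L i z1)
      have hb : Le cs (cs.simple i * z) (L cs i z1) :=
        (Relation.ReflTransGen.single h3).trans (le_L' i z1)
      rw [show L cs i z = if cs.length z < cs.length (cs.simple i * z) then cs.simple i * z else z
        from by rw [L]]
      split_ifs
      · exact hb
      · exact ha

open Classical in
/-- the smaller of `w` and `s w` -/
noncomputable def Mn (cs : CoxeterSystem M W) (i : B) (w : W) : W :=
  if cs.length (cs.simple i * w) < cs.length w then cs.simple i * w else w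

lemma Mn_le (i : B) (w : W) : Le cs (Mn cs i w) w := by
  rw [Mn]; split_ifs with h
  · have h1 : cs.length (cs.simple i * w) < cs.length (cs.simple i * (cs.simple i * w)) := by
      rw [ss]; exact h
    have := St.simple h1
    rw [ss] at this
    exact Relation.ReflTransGen.single this
  · exact Relation.ReflTransGen.refl

lemma Mn_le' (i : B) (w : W) : Le cs (Mn cs i w) (cs.simple i * w) := by
  rw [Mn]; split_ifs with h
  · exact Relation.ReflTransGen.refl
  · apply Relation.ReflTransGen.single (St.simple _)
    rcases lcases (cs := cs) i w with h2 | h2 <;> omega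

lemma Mn_mono (i : B) {u v : W} (h : Le cs u v) : Le cs (Mn cs i u) (Mn cs i v) := by
  induction h with
  | refl => exact Relation.ReflTransGen.refl
  | tail _ h2 ih =>
    rename_i z z1 _
    apply Relation.ReflTransGen.trans ih
    rcases step_cases i h2 with h3 | h3
    · obtain ⟨_, _, _, hl⟩ := h2
      have e1 : Mn cs i z1 = z := by rw [Mn, h3, ss, if_pos (by rw [← h3]; exact hl)]
      rw [e1]
      exact Mn_le i z
    · rw [show Mn cs i z1 = if cs.length (cs.simple i * z1) < cs.length z1 then cs.simple i * z1
        else z1 from by rw [Mn]]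
      split_ifs
      · exact (Mn_le' i z).trans (Relation.ReflTransGen.single h3)
      · exact (Mn_le i z).trans (Relation.ReflTransGen.single h2)

lemma Mn_L (i : B) (y : W) : Le cs (Mn cs i (L cs i y)) y := by
  rcases lcases (cs := cs) i y with h2 | h2
  · rw [L_up (by omega), Mn, ss, if_pos (by omega)]
    exact Relation.ReflTransGen.refl
  · rw [L_dn (by omega)]
    exact Mn_le i y

end Pool.Agent.V1121.BP
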