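import Pool.Agent.V1121.BP.Pi

set_option autoImplicit false

namespace Pool.Agent.V1121.BP

open CoxeterSystem Pool.Agent.V1121.QG

variable {B : Type*} {M : CoxeterMatrix B}
variable {W : Type*} [Group W]
variable {cs : CoxeterSystem M W}

/-- the letters of (some) reduced word -/
def Sp (cs : CoxeterSystem M W) (v : W) : Set B :=
  {i | ∃ ω : List B, cs.IsReduced ω ∧ cs.wordProd ω = v ∧ i ∈ ω}

/-- Billey-Postnikov decompositions -/
def BPd (cs : CoxeterSystem M W) (w : W) (J : Set B) : Prop :=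
  ∃ v u, Mr cs J v ∧ u ∈ WJ cs J ∧ w = v * u ∧
    ∀ j ∈ J, j ∈ Sp cs v → cs.length (cs.simple j * u) < cs.length u

/-- the projection form -/
def BQ (cs : CoxeterSystem M W) (w : W) (J : Set B) : Prop := Suf cs (Pi cs J w) w

lemma BPd.toBQ {w : W} {J : Set B} (h : BPd cs w J) : BQ cs w J := by
  obtain ⟨v, u, hv, hu, rfl, h1⟩ := h
  obtain ⟨α, h2, h3⟩ := exists_word (cs := cs) v
  have h4 := hv.add hu
  have h5 : LL cs α u = v * u := LL_of_add h4 h2 h3
  have h6 : Pi cs J (v * u) = u := by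
    rw [← h5, Pi_LL, Pi_self hu]
    apply LL_fix'
    intro i hi
    obtain ⟨h7, h8⟩ := mem_fl.mp hi
    exact L_dn (h1 i h8 ⟨α, h2, h3, h7⟩)
  rw [BQ, h6]
  exact ⟨v, rfl, h4⟩

lemma BQ.fact {v u : W} {J : Set B} (hv : Mr cs J v) (hu : u ∈ WJ cs J) (h : BQ cs (v * u) J) :
    Pi cs J (v * u) = u := by
  obtain ⟨α, h2, h3⟩ := exists_word (cs := cs) v
  have h5 : LL cs α u = v * u := LL_of_add (hv.add hu) h2 h3
  have h6 : Suf cs (Pi cs J (v * u)) u := hv.max hu (Pi_mem _ _) h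
  have h7 : Suf cs u (Pi cs J (v * u)) := by
    rw [← h5, Pi_LL, Pi_self hu]; exact suf_LL _ _
  exact h6.eq_of_len h7.len

lemma BQ.toBPd {w : W} {J : Set B} (h : BQ cs w J) : BPd cs w J := by
  obtain ⟨v, u, hv, hu, rfl⟩ := exists_fact cs J w
  refine ⟨v, u, hv, hu, rfl, ?_⟩
  rintro j hj ⟨α, h2, h3, h4⟩
  have h1 := h.fact hv hu
  have h5 : LL cs α u = v * u := LL_of_add (hv.add hu) h2 h3
  rw [← h5, Pi_LL, Pi_self hu] at h1
  exact L_fix_iff.mp (LL_fix h1 j (mem_fl.mpr ⟨h4, hj⟩))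

/-- `w` is obtained from its projection by left operators -/
lemma BQ.exists_LL {w : W} {J : Set B} (h : BQ cs w J) :
    ∃ x α, w = x * Pi cs J w ∧ cs.length w = cs.length x + cs.length (Pi cs J w) ∧
      cs.IsReduced α ∧ cs.wordProd α = x ∧ LL cs α (Pi cs J w) = w := by
  obtain ⟨x, h1, h2⟩ := h
  obtain ⟨α, h3, h4⟩ := exists_word (cs := cs) x
  refine ⟨x, α, h1, h2, h3, h4, ?_⟩
  rw [LL_of_add (x := x) (by rw [← h1]; exact h2) h3 h4, ← h1]

lemma BQ.inter {w : W} {J K : Set B} (hJ : BQ cs w J) (hK : BQ cs w K) : BQ cs w (J ∩ K) := by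
  obtain ⟨x, α, _, _, _, _, h⟩ := hK.exists_LL
  have h1 : Suf cs (Pi cs (J ∩ K) w) (Pi cs J w) := by
    conv_rhs => rw [← h]
    rw [Pi_LL, Pi_Pi]
    exact suf_LL _ _
  exact h1.trans hJ

lemma BQ.proj {z : W} {J : Set B} (h : BQ cs z J) (U : Set B) : BQ cs (Pi cs U z) J := by
  obtain ⟨x, α, _, _, _, _, h1⟩ := h.exists_LL
  rw [BQ, Pi_comm]
  have h2 : Pi cs U z = LL cs (fl U α) (Pi cs U (Pi cs J z)) := by
    conv_lhs => rw [← h1]
    rw [Pi_LL]
  rw [h2, ← h2]
  conv_rhs => rw [h2]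
  exact suf_LL _ _

/-- one side of the reduction -/
lemma one_side (H : Finset B) {J : Set B} {z : W} {s : B} (hs : s ∈ H) (hz : z ∈ WJ cs (H : Set B))
    (hB : BQ cs z J) (hsJ : s ∈ J → L cs s (Pi cs J z) = Pi cs J z) :
    (∀ j ∈ H, j ∈ J → R cs j z = z) ∨
    ∃ U : Finset B, U ⊆ H ∧ U ≠ H ∧ s ∈ U ∧
      (L cs s (Pi cs (U : Set B) z) = Pi cs (U : Set B) z → L cs s z = z) := by
  classical
  obtain ⟨x, α, h1, h2, h3, h4, h5⟩ := hB.exists_LL
  set u := Pi cs J z with hu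
  have huJ : u ∈ WJ cs J := Pi_mem J z
  -- letters
  obtain ⟨β, h6, h7⟩ := exists_word (cs := cs) u
  have hred : cs.IsReduced (α ++ β) := by
    unfold CoxeterSystem.IsReduced
    rw [cs.wordProd_append, h4, h7, ← h1, h2, List.length_append, ← h3.eq, ← h6.eq, h4, h7]
  have hlet : ∀ i ∈ α ++ β, i ∈ (H : Set B) := by
    apply letters_mem hred
    rw [cs.wordProd_append, h4, h7, ← h1]; exact hz
  have huH : u ∈ WJ cs (H : Set B) := by
    rw [← h7]; exact wordProd_mem fun i hi => hlet i (List.mem_append_right _ hi)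
  -- fixed letters
  have hfix : ∀ i, (i ∈ α ∨ i = s) → i ∈ J → L cs i u = u := by
    intro i hi hiJ
    rcases hi with hi | rfl
    · have h8 : LL cs (fl J α) u = u := by
        have : Pi cs J z = LL cs (fl J α) (Pi cs J u) := by rw [← Pi_LL, h5]
        rw [Pi_self huJ, ← hu] at this
        exact this.symm
      exact LL_fix h8 i (mem_fl.mpr ⟨hi, hiJ⟩)
    · exact hsJ hiJ
  set U : Finset B := insert s α.toFinset with hU
  have hUH : U ⊆ H := by
    intro i hi
    rw [hU, Finset.mem_insert, List.mem_toFinset] at hi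
    rcases hi with rfl | hi
    · exact hs
    · exact hlet i (List.mem_append_left _ hi)
  have hmU : ∀ i, i ∈ U ↔ (i ∈ α ∨ i = s) := by
    intro i; rw [hU, Finset.mem_insert, List.mem_toFinset, or_comm]
  by_cases hUe : U = H
  · left
    intro j hj hjJ
    have huG : u ∈ WJ cs ((H : Set B) ∩ J) := by
      rw [← Pi_self huJ, Pi.eq_1] 
      have := Pi_mem_inter (cs := cs) (J := J) huH
      rw [Pi_self huJ] at this
      rw [← Pi.eq_1, Pi_self huJ, Set.inter_comm]
      exact this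
    have h9 := fix_right huG (fun i hi => hfix i ((hmU i).mp (by rw [hUe]; exact hi.1)) hi.2) j ⟨hj, hjJ⟩
    rw [← h5, ← LL_R, h9]
  · right
    refine ⟨U, hUH, hUe, (hmU s).mpr (Or.inr rfl), ?_⟩
    intro hL
    -- factor u on the left
    set G : Set B := (U : Set B) ∩ J with hG
    obtain ⟨a', x', ha', hx', he⟩ := exists_fact cs G u⁻¹
    have hadd := ha'.add hx'
    -- u = x'⁻¹ * a'⁻¹
    have he2 : u = x'⁻¹ * a'⁻¹ := by rw [← mul_inv_rev, ← he, inv_inv]
    have hxG : x'⁻¹ ∈ WJ cs G := Subgroup.inv_mem _ hx'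
    have hlen : cs.length (x'⁻¹ * a'⁻¹) = cs.length x'⁻¹ + cs.length a'⁻¹ := by
      rw [← mul_inv_rev, cs.length_inv, cs.length_inv, cs.length_inv, hadd, add_comm]
    have hxfix : ∀ i ∈ G, L cs i x'⁻¹ = x'⁻¹ := by
      intro i hi
      have h10 := hfix i ((hmU i).mp hi.1) hi.2
      rw [L_fix_iff] at h10 ⊢
      have h11 := ha'.add (Subgroup.mul_mem _ hx' (Subgroup.subset_closure ⟨i, hi, rfl⟩) :
        x' * cs.simple i ∈ WJ cs G)
      have h12 : cs.length (cs.simple i * u) = cs.length (a' * (x' * cs.simple i)) := by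
        rw [← cs.length_inv, mul_inv_rev, he, cs.inv_simple, mul_assoc]
      have h13 : cs.length u = cs.length a' + cs.length x' := by
        rw [← cs.length_inv, he, hadd]
      have h14 : cs.length (cs.simple i * x'⁻¹) = cs.length (x' * cs.simple i) := by
        rw [← cs.length_inv, mul_inv_rev, inv_inv, cs.inv_simple]
      rw [h14, cs.length_inv]
      omega
    have hxr := fix_right hxG hxfix
    -- words
    obtain ⟨ξ, h15, h16, h17⟩ := mem_WJ_word hxG
    obtain ⟨δ, h18, h19⟩ := exists_word (cs := cs) a'⁻¹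
    have haJ : a'⁻¹ ∈ WJ cs J := by
      have : a'⁻¹ = x' * u := by rw [he2]; group
      rw [this]
      exact Subgroup.mul_mem _ (WJ_mono Set.inter_subset_right hx') huJ
    have hξ : LL cs ξ a'⁻¹ = u := by rw [LL_of_add hlen h15 h17, he2]
    have hPu : Pi cs (U : Set B) u = x'⁻¹ := by
      rw [← hξ, Pi_LL, fl_of_all (fun i hi => (h16 i hi).1)]
      have hy : Pi cs (U : Set B) a'⁻¹ ∈ WJ cs G := Pi_mem_inter haJ
      obtain ⟨η, h20, h21, h22⟩ := mem_WJ_word hy
      rw [← h22, LL_swap h15 h20, h17]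
      exact RR_fix' fun j hj => hxr j (h21 j hj)
    have hPz : Pi cs (U : Set B) z = LL cs α x'⁻¹ := by
      conv_lhs => rw [← h5]
      rw [Pi_LL, hPu, fl_of_all]
      intro i hi
      exact (hmU i).mpr (Or.inl hi)
    have hzR : z = RR cs δ (Pi cs (U : Set B) z) := by
      rw [hPz, ← LL_RR, RR_of_add hlen h18 h19, ← he2, h5]
    rw [hzR, L_RR, hL]

/-- the key claim -/
theorem key {J K : Set B} (n : ℕ) : ∀ (H : Finset B) (z : W) (s : B), H.card = n → s ∈ H →
    z ∈ WJ cs (H : Set B) → (∀ i ∈ H, i ∈ J ∨ i ∈ K) → BQ cs z J → BQ cs z K →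
    (s ∈ J → L cs s (Pi cs J z) = Pi cs J z) → (s ∈ K → L cs s (Pi cs K z) = Pi cs K z) →
    L cs s z = z := by
  induction n using Nat.strong_induction_on with
  | _ n ih =>
    intro H z s hc hs hz hJK hJ hK hsJ hsK
    -- the inductive step for a smaller set
    have step : ∀ U : Finset B, U ⊆ H → U ≠ H → s ∈ U →
        L cs s (Pi cs (U : Set B) z) = Pi cs (U : Set B) z := by
      intro U h1 h2 h3
      apply ih U.card (by rw [← hc]; exact Finset.card_lt_card (lt_of_le_of_ne h1 h2)) U _ s rfl h3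
        (Pi_mem _ _) (fun i hi => hJK i (h1 hi)) (hJ.proj _) (hK.proj _)
      · intro h4
        rw [Pi_comm, ← Pi_L_mem (J := (U : Set B)) (by exact h3), hsJ h4]
      · intro h4
        rw [Pi_comm, ← Pi_L_mem (J := (U : Set B)) (by exact h3), hsK h4]
    rcases one_side H hs hz hJ hsJ with h1 | ⟨U, h1, h2, h3, h4⟩
    · rcases one_side H hs hz hK hsK with h5 | ⟨U, h6, h2, h3, h4⟩
      · apply fix_left hz _ s hs
        intro j hj
        rcases hJK j hj with h | h
        · exact h1 j hj h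
        · exact h5 j hj h
      · exact h4 (step U h6 h2 h3)
    · exact h4 (step U h1 h2 h3)

/-- one side for the union -/
lemma union_side {J : Set B} {L' : Set B} (hJL : J ⊆ L') {v z : W} (hv : Mr cs L' v)
    (hz : z ∈ WJ cs L') (hw : BQ cs (v * z) J) {α : List B} (hα : cs.IsReduced α)
    (hαv : cs.wordProd α = v) : BQ cs z J ∧ ∀ s ∈ α, s ∈ J → L cs s (Pi cs J z) = Pi cs J z := by
  have h5 : LL cs α z = v * z := LL_of_add (hv.add hz) hα hαv
  have h1 : Suf cs (Pi cs J (v * z)) z := hv.max hz (WJ_mono hJL (Pi_mem _ _)) hw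
  have h2 : Suf cs (Pi cs J z) (Pi cs J (v * z)) := by
    rw [← h5, Pi_LL]; exact suf_LL _ _
  have h3 : Suf cs (Pi cs J (v * z)) (Pi cs J z) := by
    obtain ⟨x, h6, h7⟩ := h1
    obtain ⟨γ, h8, h9⟩ := exists_word (cs := cs) x
    have h10 : LL cs γ (Pi cs J (v * z)) = z := by
      rw [LL_of_add (x := x) (by rw [← h6]; exact h7) h8 h9, ← h6]
    have h11 : Pi cs J z = LL cs (fl J γ) (Pi cs J (v * z)) := by
      conv_lhs => rw [← h10]
      rw [Pi_LL, Pi_self (Pi_mem _ _)]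
    rw [h11]; exact suf_LL _ _
  have h4 : Pi cs J z = Pi cs J (v * z) := h2.eq_of_len h3.len
  refine ⟨by rw [BQ, h4]; exact h1, ?_⟩
  have h12 : LL cs (fl J α) (Pi cs J z) = Pi cs J z := by
    conv_rhs => rw [h4, ← h5, Pi_LL]
  intro s hs hsJ
  exact LL_fix h12 s (mem_fl.mpr ⟨hs, hsJ⟩)

lemma BQ.union {w : W} {J K : Set B} (hJ : BQ cs w J) (hK : BQ cs w K) : BPd cs w (J ∪ K) := by
  classical
  obtain ⟨v, z, hv, hz, rfl⟩ := exists_fact cs (J ∪ K) w
  refine ⟨v, z, hv, hz, rfl, ?_⟩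
  rintro s hs ⟨α, h1, h2, h3⟩
  obtain ⟨h4, h5⟩ := union_side Set.subset_union_left hv hz hJ h1 h2
  obtain ⟨h6, h7⟩ := union_side Set.subset_union_right hv hz hK h1 h2
  obtain ⟨η, h8, h9, h10⟩ := mem_WJ_word hz
  have hH : z ∈ WJ cs ((insert s η.toFinset : Finset B) : Set B) := by
    rw [← h10]
    apply wordProd_mem
    intro i hi
    simp [hi]
  have := key (cs := cs) (J := J) (K := K) _ (insert s η.toFinset) z s rfl
    (Finset.mem_insert_self _ _) hH ?_ h4 h6 (h5 s h3) (h7 s h3)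
  · exact L_fix_iff.mp this
  · intro i hi
    rw [Finset.mem_insert, List.mem_toFinset] at hi
    rcases hi with rfl | hi
    · exact hs
    · exact h9 i hi

theorem main (cs : CoxeterSystem M W) (w : W) (J K : Set B) (hJ : BPd cs w J) (hK : BPd cs w K) :
    BPd cs w (J ∩ K) ∧ BPd cs w (J ∪ K) :=
  ⟨(hJ.toBQ.inter hK.toBQ).toBPd, hJ.toBQ.union hK.toBQ⟩

end Pool.Agent.V1121.BP
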