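import Pool.Agent.V1121.BP.Proj

set_option autoImplicit false

namespace Pool.Agent.V1121.BP

open CoxeterSystem Pool.Agent.V1121.QG

variable {B : Type*} {M : CoxeterMatrix B}
variable {W : Type*} [Group W]
variable (cs : CoxeterSystem M W)

open Classical in
/-- keep the letters in `J` -/
noncomputable def fl (J : Set B) (ω : List B) : List B := ω.filter (fun i => decide (i ∈ J))

/-- a chosen reduced word -/
noncomputable def rw' (w : W) : List B := (exists_word (cs := cs) w).choose

/-- the Demazure projection to the parabolic subgroup -/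
noncomputable def Pi (J : Set B) (w : W) : W := LL cs (fl J (rw' cs w)) 1

variable {cs}

lemma rw'_red (w : W) : cs.IsReduced (rw' cs w) := (exists_word (cs := cs) w).choose_spec.1
lemma rw'_prod (w : W) : cs.wordProd (rw' cs w) = w := (exists_word (cs := cs) w).choose_spec.2

lemma fl_cons_mem {J : Set B} {i : B} (h : i ∈ J) (ω : List B) : fl J (i :: ω) = i :: fl J ω := by
  rw [fl, List.filter_cons_of_pos (by simpa using h)]; rfl
lemma fl_cons_not {J : Set B} {i : B} (h : i ∉ J) (ω : List B) : fl J (i :: ω) = fl J ω := by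
  rw [fl, List.filter_cons_of_neg (by simpa using h)]; rfl
lemma fl_append (J : Set B) (α β : List B) : fl J (α ++ β) = fl J α ++ fl J β := by
  rw [fl, List.filter_append]; rfl
lemma mem_fl {J : Set B} {i : B} {ω : List B} : i ∈ fl J ω ↔ i ∈ ω ∧ i ∈ J := by
  rw [fl, List.mem_filter]; simp
lemma fl_of_all {J : Set B} {ω : List B} (h : ∀ i ∈ ω, i ∈ J) : fl J ω = ω := by
  rw [fl, List.filter_eq_self]; simpa using h
lemma fl_fl (J K : Set B) (ω : List B) : fl J (fl K ω) = fl (J ∩ K) ω := by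
  classical
  rw [fl, fl, fl, List.filter_filter]
  congr 1
  ext i
  simp

lemma LL_mem {J : Set B} {ω : List B} (h : ∀ i ∈ ω, i ∈ J) {y : W} (hy : y ∈ WJ cs J) :
    LL cs ω y ∈ WJ cs J := by
  obtain ⟨x, h1, _, h3⟩ := LL_factor (cs := cs) ω y
  rw [h1]
  exact Subgroup.mul_mem _ (h3 J h) hy

lemma le_fl (J : Set B) (ω : List B) : Le cs (LL cs (fl J ω) 1) (LL cs ω 1) := by
  induction ω with
  | nil => exact Relation.ReflTransGen.refl
  | cons i ω ih =>
    by_cases hi : i ∈ J
    · rw [fl_cons_mem hi, LL_cons, LL_cons]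
      exact L_mono i ih
    · rw [fl_cons_not hi, LL_cons]
      exact ih.trans (le_L i _)

lemma max_fl (J : Set B) (ω : List B) : ∀ u ∈ WJ cs J, Le cs u (LL cs ω 1) →
    Le cs u (LL cs (fl J ω) 1) := by
  induction ω with
  | nil => intro u _ h; exact h
  | cons i ω ih =>
    intro u hu h
    rw [LL_cons] at h
    have h1 : Le cs (Mn cs i u) (LL cs ω 1) := (Mn_mono i h).trans (Mn_L i _)
    rcases lcases (cs := cs) i u with h2 | h2
    · have e : Mn cs i u = u := by rw [Mn, if_neg (by omega)]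
      rw [e] at h1
      have h3 := ih u hu h1
      by_cases hi : i ∈ J
      · rw [fl_cons_mem hi, LL_cons]
        exact h3.trans (le_L i _)
      · rw [fl_cons_not hi]; exact h3
    · have e : Mn cs i u = cs.simple i * u := by rw [Mn, if_pos (by omega)]
      rw [e] at h1
      obtain ⟨hi, hu'⟩ := desc_mem hu (i := i) (by omega)
      have h3 := ih _ hu' h1
      rw [fl_cons_mem hi, LL_cons]
      have h4 := L_mono i h3
      have e2 : L cs i (cs.simple i * u) = u := by
        rw [L_up, ss]; rw [ss]; omega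
      rwa [e2] at h4

lemma fl_mem (J : Set B) (ω : List B) : LL cs (fl J ω) 1 ∈ WJ cs J :=
  LL_mem (fun _ hi => (mem_fl.mp hi).2) (Subgroup.one_mem _)

lemma fl_wd (J : Set B) {ω ω' : List B} (h : LL cs ω 1 = LL cs ω' 1) :
    LL cs (fl J ω) 1 = LL cs (fl J ω') 1 := by
  apply Le.antisymm
  · apply max_fl J ω' _ (fl_mem J ω)
    rw [← h]; exact le_fl J ω
  · apply max_fl J ω _ (fl_mem J ω')
    rw [h]; exact le_fl J ω'

lemma Pi_LL1 (J : Set B) (ω : List B) : Pi cs J (LL cs ω 1) = LL cs (fl J ω) 1 := by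
  apply fl_wd
  rw [LL_red' (rw'_red _), rw'_prod]

lemma Pi_LL (J : Set B) (ω : List B) (y : W) : Pi cs J (LL cs ω y) = LL cs (fl J ω) (Pi cs J y) := by
  have e : y = LL cs (rw' cs y) 1 := by rw [LL_red' (rw'_red _), rw'_prod]
  conv_lhs => rw [e]
  rw [← LL_append, Pi_LL1, fl_append, LL_append]; rfl

lemma Pi_mem (J : Set B) (w : W) : Pi cs J w ∈ WJ cs J := fl_mem J _

lemma Pi_word {J : Set B} {ω : List B} (h : cs.IsReduced ω) :
    Pi cs J (cs.wordProd ω) = LL cs (fl J ω) 1 := by
  rw [← LL_red' h, Pi_LL1]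

lemma Pi_self {J : Set B} {w : W} (h : w ∈ WJ cs J) : Pi cs J w = w := by
  obtain ⟨η, h1, h2, rfl⟩ := mem_WJ_word h
  rw [Pi_word h1, fl_of_all h2, LL_red' h1]

lemma Pi_Pi (J K : Set B) (w : W) : Pi cs J (Pi cs K w) = Pi cs (J ∩ K) w := by
  rw [Pi, Pi.eq_1 (w := w) (J := K), Pi.eq_1 (J := J ∩ K)]
  have := Pi_LL1 (cs := cs) J (fl K (rw' cs w))
  rw [Pi] at this
  rw [this, fl_fl]

lemma Pi_comm (J K : Set B) (w : W) : Pi cs J (Pi cs K w) = Pi cs K (Pi cs J w) := by
  rw [Pi_Pi, Pi_Pi, Set.inter_comm]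

lemma Pi_mem_inter {J K : Set B} {w : W} (h : w ∈ WJ cs K) : Pi cs J w ∈ WJ cs (J ∩ K) := by
  rw [← Pi_self h, Pi_Pi]
  exact Pi_mem _ _

lemma WJ_mono {J K : Set B} (h : J ⊆ K) : WJ cs J ≤ WJ cs K :=
  Subgroup.closure_mono (Set.image_mono h)

lemma Pi_L_mem {J : Set B} {i : B} (hi : i ∈ J) (w : W) : Pi cs J (L cs i w) = L cs i (Pi cs J w) := by
  have := Pi_LL (cs := cs) J [i] w
  rwa [fl_cons_mem hi, show fl J ([] : List B) = [] from rfl] at this

/-- a reduced product is an iterated Demazure operator -/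
lemma LL_of_add {x y : W} (h : cs.length (x * y) = cs.length x + cs.length y) {α : List B}
    (hα : cs.IsReduced α) (hx : cs.wordProd α = x) : LL cs α y = x * y := by
  obtain ⟨β, h1, h2⟩ := exists_word (cs := cs) y
  have h3 : cs.IsReduced (α ++ β) := by
    unfold CoxeterSystem.IsReduced
    rw [cs.wordProd_append, hx, h2, h, List.length_append, ← hα.eq, ← h1.eq, hx, h2]
  rw [← h2, LL_red h3, cs.wordProd_append, hx]

lemma RR_of_add {x y : W} (h : cs.length (x * y) = cs.length x + cs.length y) {β : List B}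
    (hβ : cs.IsReduced β) (hy : cs.wordProd β = y) : RR cs β x = x * y := by
  rw [RR_red (by rw [hy, h, ← hβ.eq, hy]), hy]

/-! ### the longest element -/

lemma fix_right {G : Set B} {x : W} (hx : x ∈ WJ cs G) (h : ∀ i ∈ G, L cs i x = x) :
    ∀ j ∈ G, R cs j x = x := by
  intro j hj
  obtain ⟨η, h1, h2, h3⟩ := mem_WJ_word hx
  have hy : R cs j x ∈ WJ cs G := by
    rw [R]; split_ifs
    · exact Subgroup.mul_mem _ hx (Subgroup.subset_closure ⟨j, hj, rfl⟩)
    · exact hx
  obtain ⟨ω, h4, h5, h6⟩ := mem_WJ_word hy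
  have h7 : LL cs ω x = x := LL_fix' fun i hi => h i (h5 i hi)
  have h8 : x = RR cs η (R cs j x) := by
    conv_lhs => rw [← h7, ← h3, LL_swap h4 h1, h6]
  apply R_eq_of_len
  have h9 := RR_len (cs := cs) η (R cs j x)
  rwa [← h8] at h9

lemma fix_left {G : Set B} {x : W} (hx : x ∈ WJ cs G) (h : ∀ j ∈ G, R cs j x = x) :
    ∀ i ∈ G, L cs i x = x := by
  intro j hj
  obtain ⟨η, h1, h2, h3⟩ := mem_WJ_word hx
  have hy : L cs j x ∈ WJ cs G := by
    rw [L]; split_ifs
    · exact Subgroup.mul_mem _ (Subgroup.subset_closure ⟨j, hj, rfl⟩) hx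
    · exact hx
  obtain ⟨ω, h4, h5, h6⟩ := mem_WJ_word hy
  have h7 : RR cs ω x = x := RR_fix' fun i hi => h i (h5 i hi)
  have h8 : x = LL cs η (L cs j x) := by
    conv_lhs => rw [← h7, ← h3, ← LL_swap h1 h4, h6]
  apply L_eq_of_len
  have h9 := LL_len (cs := cs) η (L cs j x)
  rwa [← h8] at h9

/-! ### parabolic factorization -/

/-- minimal coset representatives -/
def Mr (cs : CoxeterSystem M W) (J : Set B) (v : W) : Prop :=
  ∀ j ∈ J, cs.length v < cs.length (v * cs.simple j)

lemma geo_supp {J : Set B} {u : W} (hu : u ∈ WJ cs J) {x : B →₀ ℝ} (hx : ∀ k, k ∉ J → x k = 0) :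
    ∀ k, k ∉ J → geo cs u x k = 0 := by
  classical
  obtain ⟨η, h1, h2, rfl⟩ := mem_WJ_word hu
  clear h1 hu
  induction η with
  | nil => simpa using hx
  | cons i η ih =>
    intro k hk
    have h3 := ih (fun j hj => h2 j (List.mem_cons_of_mem _ hj)) k hk
    have hik : i ≠ k := by
      rintro rfl; exact hk (h2 _ List.mem_cons_self)
    rw [cs.wordProd_cons, ← geo_geo, geo_simple, sg_apply, Finsupp.sub_apply, h3,
      Finsupp.smul_apply, ee, Finsupp.single_apply, if_neg hik]
    simp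

lemma geo_pos_of_supp {J : Set B} {v : W} (hv : Mr cs J v) {x : B →₀ ℝ} (hx : ∀ k, k ∉ J → x k = 0)
    (h0 : 0 ≤ x) : 0 ≤ geo cs v x := by
  have h : x = ∑ i ∈ x.support, x i • (ee i : B →₀ ℝ) := by
    conv_lhs => rw [← Finsupp.sum_single x]
    rw [Finsupp.sum]
    apply Finset.sum_congr rfl
    intro i _
    rw [ee, Finsupp.smul_single, smul_eq_mul, mul_one]
  rw [h, map_sum]
  apply Finset.sum_nonneg
  intro i hi
  rw [map_smul]
  apply smul_nonneg (h0 i)
  apply geo_nonneg
  apply hv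
  by_contra hc
  exact (Finsupp.mem_support_iff.mp hi) (hx i hc)

lemma Mr.add {J : Set B} {v : W} (hv : Mr cs J v) {u : W} (hu : u ∈ WJ cs J) :
    cs.length (v * u) = cs.length v + cs.length u := by
  classical
  obtain ⟨η, h1, h2, rfl⟩ := mem_WJ_word hu
  clear hu
  induction η using List.reverseRecOn with
  | nil => simp
  | append_singleton η j ih =>
    have h3 : cs.IsReduced η := by
      have := h1.take η.length
      simpa using this
    have h4 := ih h3 (fun i hi => h2 i (List.mem_append_left _ hi))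
    have h5 := h1.eq
    have h6 := h3.eq
    rw [cs.wordProd_append, cs.wordProd_singleton] at h5 ⊢
    rw [List.length_append, List.length_singleton] at h5
    have h7 : 0 ≤ geo cs (cs.wordProd η) (ee j) := geo_nonneg cs _ _ (by omega)
    have hj : j ∈ J := h2 j (by simp)
    have h8 : 0 ≤ geo cs v (geo cs (cs.wordProd η) (ee j)) := by
      apply geo_pos_of_supp hv _ h7
      apply geo_supp (wordProd_mem fun i hi => h2 i (List.mem_append_left _ hi))
      intro k hk
      rw [ee, Finsupp.single_apply, if_neg]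
      rintro rfl; exact hk hj
    rw [geo_geo, geo_nonneg_iff] at h8
    rw [← mul_assoc]
    rcases rcases' (cs := cs) (v * cs.wordProd η) j with h9 | h9 <;> omega

lemma exists_fact (cs : CoxeterSystem M W) (J : Set B) (w : W) : ∃ v u, Mr cs J v ∧ u ∈ WJ cs J ∧ w = v * u := by
  induction hn : cs.length w using Nat.strong_induction_on generalizing w with
  | _ n ih =>
    by_cases h : Mr cs J w
    · exact ⟨w, 1, h, Subgroup.one_mem _, by simp⟩
    · unfold Mr at h
      push Not at h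
      obtain ⟨j, hj, hl⟩ := h
      have h1 : cs.length (w * cs.simple j) < n := by
        rcases rcases' (cs := cs) w j with h9 | h9 <;> omega
      obtain ⟨v, u, h2, h3, h4⟩ := ih _ h1 (w * cs.simple j) rfl
      refine ⟨v, u * cs.simple j, h2, Subgroup.mul_mem _ h3 (Subgroup.subset_closure ⟨j, hj, rfl⟩), ?_⟩
      rw [← mul_assoc, ← h4, ss']

lemma Mr.max {J : Set B} {v u u' : W} (hv : Mr cs J v) (hu : u ∈ WJ cs J) (hu' : u' ∈ WJ cs J)
    (h : Suf cs u' (v * u)) : Suf cs u' u := by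
  obtain ⟨x, h1, h2⟩ := h
  have e : x = v * (u * u'⁻¹) := by
    rw [← mul_assoc, h1]; group
  have h3 := hv.add (Subgroup.mul_mem _ hu (Subgroup.inv_mem _ hu'))
  have h4 := hv.add hu
  rw [← e] at h3
  exact ⟨u * u'⁻¹, by group, by omega⟩

end Pool.Agent.V1121.BP
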