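import Pool.Agent.V1121.BP.Hecke

set_option autoImplicit false

namespace Pool.Agent.V1121.BP

open CoxeterSystem Pool.Agent.V1121.QG

variable {B : Type*} {M : CoxeterMatrix B}
variable {W : Type*} [Group W]
variable (cs : CoxeterSystem M W)

/-- iterated left operators -/
noncomputable def LL (ω : List B) (y : W) : W := ω.foldr (L cs) y

/-- iterated right operators -/
noncomputable def RR (ω : List B) (y : W) : W := ω.foldl (fun w j => R cs j w) y

/-- the standard parabolic subgroup -/
def WJ (J : Set B) : Subgroup W := Subgroup.closure (cs.simple '' J)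

/-- reduced right factor -/
def Suf (u w : W) : Prop := ∃ x, w = x * u ∧ cs.length w = cs.length x + cs.length u

variable {cs}

@[simp] lemma LL_nil (y : W) : LL cs [] y = y := rfl
@[simp] lemma LL_cons (i : B) (ω : List B) (y : W) : LL cs (i :: ω) y = L cs i (LL cs ω y) := rfl
lemma LL_append (α β : List B) (y : W) : LL cs (α ++ β) y = LL cs α (LL cs β y) := by
  rw [LL, List.foldr_append]; rfl

@[simp] lemma RR_nil (y : W) : RR cs [] y = y := rfl
@[simp] lemma RR_cons (i : B) (ω : List B) (y : W) : RR cs (i :: ω) y = RR cs ω (R cs i y) := rfl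
lemma RR_append (α β : List B) (y : W) : RR cs (α ++ β) y = RR cs β (RR cs α y) := by
  rw [RR, List.foldl_append]; rfl

lemma LL_R (ω : List B) (j : B) (y : W) : LL cs ω (R cs j y) = R cs j (LL cs ω y) := by
  induction ω with
  | nil => rfl
  | cons i ω ih => rw [LL_cons, LL_cons, ih, LR_comm]

lemma LL_RR (ω η : List B) (y : W) : LL cs ω (RR cs η y) = RR cs η (LL cs ω y) := by
  induction η generalizing y with
  | nil => rfl
  | cons j η ih => rw [RR_cons, RR_cons, ih, LL_R]

lemma L_RR (i : B) (η : List B) (y : W) : L cs i (RR cs η y) = RR cs η (L cs i y) :=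
  LL_RR [i] η y

/-! ### reduced words -/

lemma red_cons {i : B} {ω : List B} (h : cs.IsReduced (i :: ω)) : cs.IsReduced ω := by
  simpa using h.drop 1

lemma LL_red {α β : List B} (h : cs.IsReduced (α ++ β)) :
    LL cs α (cs.wordProd β) = cs.wordProd (α ++ β) := by
  induction α with
  | nil => rfl
  | cons i α ih =>
    have h1 : cs.IsReduced (α ++ β) := red_cons h
    rw [LL_cons, ih h1, List.cons_append, cs.wordProd_cons]
    apply L_up
    have h2 := h.eq
    have h3 := h1.eq
    rw [List.cons_append, cs.wordProd_cons, List.length_cons] at h2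
    rw [h2, h3]; omega

lemma LL_red' {ω : List B} (h : cs.IsReduced ω) : LL cs ω 1 = cs.wordProd ω := by
  have := LL_red (cs := cs) (α := ω) (β := []) (by simpa using h)
  simpa using this

lemma RR_red {ω : List B} : ∀ {y : W}, cs.length (y * cs.wordProd ω) = cs.length y + ω.length →
    RR cs ω y = y * cs.wordProd ω := by
  induction ω with
  | nil => intro y _; simp
  | cons j ω ih =>
    intro y h
    rw [cs.wordProd_cons, ← mul_assoc, List.length_cons] at h
    have h1 := cs.length_mul_le (y * cs.simple j) (cs.wordProd ω)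
    have h2 := cs.length_wordProd_le ω
    have h3 : cs.length (y * cs.simple j) = cs.length y + 1 := by
      rcases rcases' (cs := cs) y j with h4 | h4 <;> omega
    rw [RR_cons, R_up (by omega), ih (by omega), cs.wordProd_cons, mul_assoc]

lemma RR_red' {ω : List B} (h : cs.IsReduced ω) : RR cs ω 1 = cs.wordProd ω := by
  have := RR_red (cs := cs) (ω := ω) (y := 1) (by rw [one_mul, h.eq, cs.length_one, zero_add])
  simpa using this

lemma LL_swap {ω η : List B} (hω : cs.IsReduced ω) (hη : cs.IsReduced η) :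
    LL cs ω (cs.wordProd η) = RR cs η (cs.wordProd ω) := by
  rw [← RR_red' hη, LL_RR, LL_red' hω]

lemma exists_word (w : W) : ∃ ω : List B, cs.IsReduced ω ∧ cs.wordProd ω = w := by
  obtain ⟨ω, h1, h2⟩ := cs.exists_isReduced w
  exact ⟨ω, h1, h2.symm⟩

/-! ### factorization of the iterated operator -/

lemma LL_factor (ω : List B) (y : W) : ∃ x, LL cs ω y = x * y ∧
    cs.length (LL cs ω y) = cs.length x + cs.length y ∧
    ∀ J : Set B, (∀ i ∈ ω, i ∈ J) → x ∈ WJ cs J := by
  induction ω with
  | nil => exact ⟨1, by simp, by simp, fun J _ => Subgroup.one_mem _⟩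
  | cons i ω ih =>
    obtain ⟨x, h1, h2, h3⟩ := ih
    rw [LL_cons]
    rcases lcases (cs := cs) i (LL cs ω y) with h4 | h4
    · refine ⟨cs.simple i * x, ?_, ?_, ?_⟩
      · rw [L_up (by omega), h1, mul_assoc]
      · rw [L_up (by omega)]
        have h5 := cs.length_mul_le (cs.simple i * x) y
        rw [mul_assoc, ← h1] at h5
        rcases lcases (cs := cs) i x with h6 | h6 <;> omega
      · intro J hJ
        exact Subgroup.mul_mem _ (Subgroup.subset_closure ⟨i, hJ i List.mem_cons_self, rfl⟩)
          (h3 J fun j hj => hJ j (List.mem_cons_of_mem _ hj))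
    · refine ⟨x, ?_, ?_, ?_⟩
      · rw [L_dn (by omega), h1]
      · rw [L_dn (by omega), h2]
      · intro J hJ
        exact h3 J fun j hj => hJ j (List.mem_cons_of_mem _ hj)

lemma LL_len (ω : List B) (y : W) : cs.length y ≤ cs.length (LL cs ω y) := by
  obtain ⟨x, _, h2, _⟩ := LL_factor (cs := cs) ω y
  omega

lemma RR_len (ω : List B) (y : W) : cs.length y ≤ cs.length (RR cs ω y) := by
  induction ω generalizing y with
  | nil => exact le_rfl
  | cons j ω ih => rw [RR_cons]; exact (R_len j y).trans (ih _)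

lemma Suf.refl (w : W) : Suf cs w w := ⟨1, by simp, by simp⟩

lemma Suf.trans {u v w : W} (h : Suf cs u v) (h' : Suf cs v w) : Suf cs u w := by
  obtain ⟨x, rfl, h2⟩ := h
  obtain ⟨y, rfl, h4⟩ := h'
  refine ⟨y * x, by rw [mul_assoc], ?_⟩
  have h5 := cs.length_mul_le y x
  have h6 := cs.length_mul_le (y * x) u
  rw [mul_assoc] at h6
  omega

lemma Suf.len {u w : W} (h : Suf cs u w) : cs.length u ≤ cs.length w := by
  obtain ⟨x, _, h2⟩ := h; omega

lemma Suf.eq_of_len {u w : W} (h : Suf cs u w) (h' : cs.length w ≤ cs.length u) : u = w := by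
  obtain ⟨x, h1, h2⟩ := h
  have h3 : cs.length x = 0 := by omega
  rw [cs.length_eq_zero_iff] at h3
  rw [h1, h3, one_mul]

lemma suf_LL (ω : List B) (y : W) : Suf cs y (LL cs ω y) := by
  obtain ⟨x, h1, h2, _⟩ := LL_factor (cs := cs) ω y
  exact ⟨x, h1, h2⟩

lemma LL_fix {ω : List B} {y : W} (h : LL cs ω y = y) : ∀ i ∈ ω, L cs i y = y := by
  induction ω with
  | nil => simp
  | cons i ω ih =>
    rw [LL_cons] at h
    have h1 := LL_len (cs := cs) ω y
    have h2 := L_len (cs := cs) i (LL cs ω y)
    rw [h] at h2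
    have h3 : LL cs ω y = y := ((suf_LL ω y).eq_of_len h2).symm
    rw [h3] at h
    intro j hj
    rcases List.mem_cons.mp hj with rfl | hj
    · exact h
    · exact ih h3 j hj

lemma LL_fix' {ω : List B} {y : W} (h : ∀ i ∈ ω, L cs i y = y) : LL cs ω y = y := by
  induction ω with
  | nil => rfl
  | cons i ω ih =>
    rw [LL_cons, ih fun j hj => h j (List.mem_cons_of_mem _ hj)]
    exact h i List.mem_cons_self

lemma RR_fix' {ω : List B} {y : W} (h : ∀ i ∈ ω, R cs i y = y) : RR cs ω y = y := by
  induction ω with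
  | nil => rfl
  | cons i ω ih =>
    rw [RR_cons, h i List.mem_cons_self]
    exact ih fun j hj => h j (List.mem_cons_of_mem _ hj)

/-! ### parabolic subgroups -/

lemma wordProd_mem {J : Set B} {ω : List B} (h : ∀ i ∈ ω, i ∈ J) : cs.wordProd ω ∈ WJ cs J := by
  induction ω with
  | nil => simp
  | cons i ω ih =>
    rw [cs.wordProd_cons]
    exact Subgroup.mul_mem _ (Subgroup.subset_closure ⟨i, h i List.mem_cons_self, rfl⟩)
      (ih fun j hj => h j (List.mem_cons_of_mem _ hj))

/-- exchange -/
lemma exch {η : List B} {i : B}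
    (h : cs.length (cs.simple i * cs.wordProd η) < cs.length (cs.wordProd η)) :
    ∃ α j β, η = α ++ j :: β ∧ cs.simple i * cs.wordProd η = cs.wordProd (α ++ β) := by
  have h1 : cs.length (cs.wordProd η.reverse * cs.simple i) < cs.length (cs.wordProd η.reverse) := by
    rw [cs.wordProd_reverse, ← cs.length_inv, mul_inv_rev, inv_inv, cs.inv_simple, cs.length_inv]
    exact h
  rw [← geo_nonpos_iff] at h1
  obtain ⟨ω₁, j, ω₂, h2, h3⟩ := word_split η.reverse (PR_ee cs i) h1
  rw [← rt_simple (cs := cs) i] at h3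
  have h4 := (wordProd_erase (ω₁ := ω₁) (cs.isReflection_simple i) h3).2
  refine ⟨ω₂.reverse, j, ω₁.reverse, ?_, ?_⟩
  · have := congrArg List.reverse h2
    simpa using this
  · have h5 := congrArg (fun x => x⁻¹) h4
    simp only [mul_inv_rev, cs.inv_simple] at h5
    rw [← h2, ← cs.wordProd_reverse, ← cs.wordProd_reverse, List.reverse_reverse,
      List.reverse_append] at h5
    exact h5

lemma erase_red {ω α β : List B} {j : B} (hω : cs.IsReduced ω) {i : B} (hp : ω = α ++ j :: β)
    (h : cs.length (cs.simple i * cs.wordProd ω) < cs.length (cs.wordProd ω))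
    (he : cs.simple i * cs.wordProd ω = cs.wordProd (α ++ β)) :
    cs.IsReduced (α ++ β) := by
  unfold CoxeterSystem.IsReduced
  rw [← he]
  have h1 := hω.eq
  have h2 : (α ++ β).length + 1 = ω.length := by
    rw [hp]; simp only [List.length_append, List.length_cons]; omega
  rcases lcases (cs := cs) i (cs.wordProd ω) with h3 | h3 <;> omega

lemma mem_erase {ω α β : List B} {j k : B} (hp : ω = α ++ j :: β) (hk : k ∈ α ++ β) : k ∈ ω := by
  rw [hp]
  rcases List.mem_append.mp hk with h | h
  · exact List.mem_append_left _ h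
  · exact List.mem_append_right _ (List.mem_cons_of_mem _ h)

lemma red_word_in {J : Set B} {ω : List B} (h : ∀ i ∈ ω, i ∈ J) :
    ∃ η : List B, cs.IsReduced η ∧ (∀ i ∈ η, i ∈ J) ∧ cs.wordProd η = cs.wordProd ω := by
  induction ω with
  | nil => exact ⟨[], by simp [CoxeterSystem.IsReduced], by simp, rfl⟩
  | cons i ω ih =>
    obtain ⟨η, h1, h2, h3⟩ := ih fun j hj => h j (List.mem_cons_of_mem _ hj)
    rw [cs.wordProd_cons, ← h3]
    rcases lcases (cs := cs) i (cs.wordProd η) with h4 | h4
    · refine ⟨i :: η, ?_, ?_, cs.wordProd_cons _ _⟩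
      · unfold CoxeterSystem.IsReduced
        rw [cs.wordProd_cons, h4, h1.eq, List.length_cons]
      · intro j hj
        rcases List.mem_cons.mp hj with rfl | hj
        · exact h _ List.mem_cons_self
        · exact h2 j hj
    · obtain ⟨α, k, β, hp, he⟩ := exch (cs := cs) (η := η) (i := i) (by omega)
      refine ⟨α ++ β, erase_red h1 hp (by omega) he, ?_, he.symm⟩
      intro j hj
      exact h2 j (mem_erase hp hj)

lemma mem_WJ_word {J : Set B} {w : W} (h : w ∈ WJ cs J) :
    ∃ η : List B, cs.IsReduced η ∧ (∀ i ∈ η, i ∈ J) ∧ cs.wordProd η = w := by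
  suffices hs : ∃ ω : List B, (∀ i ∈ ω, i ∈ J) ∧ cs.wordProd ω = w by
    obtain ⟨ω, h1, h2⟩ := hs
    rw [← h2]; exact red_word_in h1
  induction h using Subgroup.closure_induction with
  | mem x hx => obtain ⟨i, hi, rfl⟩ := hx; exact ⟨[i], by simpa using hi, by simp⟩
  | one => exact ⟨[], by simp, by simp⟩
  | mul x y _ _ hx hy =>
    obtain ⟨α, h1, rfl⟩ := hx
    obtain ⟨β, h2, rfl⟩ := hy
    refine ⟨α ++ β, ?_, cs.wordProd_append _ _⟩
    intro i hi
    rcases List.mem_append.mp hi with hi | hi
    · exact h1 i hi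
    · exact h2 i hi
  | inv x _ hx =>
    obtain ⟨α, h1, rfl⟩ := hx
    exact ⟨α.reverse, by simpa using h1, cs.wordProd_reverse _⟩

lemma simple_mem {J : Set B} {i : B} (h : cs.simple i ∈ WJ cs J) : i ∈ J := by
  obtain ⟨η, h1, h2, h3⟩ := mem_WJ_word h
  have h4 := h1.eq
  rw [h3, cs.length_simple] at h4
  obtain ⟨j, hj⟩ := List.length_eq_one_iff.mp h4.symm
  rw [hj, cs.wordProd_singleton] at h3
  have h5 : j = i := simple_injective cs h3
  rw [← h5]
  exact h2 j (by rw [hj]; simp)

lemma desc_mem {J : Set B} {w : W} (h : w ∈ WJ cs J) {i : B}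
    (hi : cs.length (cs.simple i * w) < cs.length w) : i ∈ J ∧ cs.simple i * w ∈ WJ cs J := by
  obtain ⟨η, h1, h2, rfl⟩ := mem_WJ_word h
  obtain ⟨α, k, β, hp, he⟩ := exch (cs := cs) (η := η) (i := i) hi
  have h3 : cs.simple i * cs.wordProd η ∈ WJ cs J := by
    rw [he]
    exact wordProd_mem fun j hj => h2 j (mem_erase hp hj)
  refine ⟨?_, h3⟩
  apply simple_mem (cs := cs)
  have h4 := Subgroup.mul_mem _ h3 (Subgroup.inv_mem _ h)
  simpa [mul_assoc] using h4

lemma letters_mem {J : Set B} {ω : List B} (hω : cs.IsReduced ω) (h : cs.wordProd ω ∈ WJ cs J) :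
    ∀ i ∈ ω, i ∈ J := by
  induction ω with
  | nil => simp
  | cons i ω ih =>
    have h1 : cs.length (cs.simple i * cs.wordProd (i :: ω)) < cs.length (cs.wordProd (i :: ω)) := by
      have h2 := hω.eq
      have h3 := cs.length_wordProd_le ω
      rw [cs.wordProd_cons] at h2 ⊢
      rw [ss, h2, List.length_cons]; omega
    obtain ⟨h4, h5⟩ := desc_mem h h1
    rw [cs.wordProd_cons, ss] at h5
    intro j hj
    rcases List.mem_cons.mp hj with rfl | hj
    · exact h4
    · exact ih (red_cons hω) h5 j hj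

end Pool.Agent.V1121.BP
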